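import Pool.Agent.Q230.MirrorEW

/-!
# MP_472e54_mp: a mirrored pair of optimal witnesses that are not related by local unitaries

For three qubits and
`H = X ⊗ X ⊗ X + Z ⊗ Z ⊗ Z + (Y ⊗ Y ⊗ 1 + Y ⊗ 1 ⊗ Y + 1 ⊗ Y ⊗ Y) / 3` (Pauli matrices) the operators
`1 + H` and `1 - H` are optimal entanglement witnesses with sum `2 · 1`, and `1 - H` is not of the
form `U (1 + H) U†` with a unitary `U` of `ℂ² ⊗ ℂ² ⊗ ℂ²`, in particular not with a local unitary.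
-/

namespace Pool.Agent.Results.MP_472e54_mp.ThreeQubits

open Matrix
open scoped ComplexOrder
open Pool.Agent.Q230.MirrorEW

theorem result :
    (H = t3 sx sx sx + t3 sz sz sz + (1 / 3 : ℂ) • (t3 sy sy 1 + t3 sy 1 sy + t3 1 sy sy) ∧
      IsOptimalEW (1 + H) ∧ IsOptimalEW (1 - H) ∧ Mirrored (1 + H) (1 - H) ∧
      (∀ U : Op q, Uᴴ * U = 1 → 1 - H ≠ U * (1 + H) * Uᴴ) ∧
      ¬ LocallyUnitary (1 + H) (1 - H)) ∧
    ∃ (n : ℕ) (d : Fin n → ℕ), 2 ≤ n ∧ (∀ i, 2 ≤ d i) ∧ ∃ W M : Op d,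
      IsOptimalEW W ∧ IsOptimalEW M ∧ Mirrored W M ∧ ¬ LocallyUnitary W M := by
  have e1 : W 1 = 1 + H := by unfold W; rw [one_smul]
  have e2 : W (-1) = 1 - H := by unfold W; rw [neg_smul, one_smul]; rfl
  have h1 : IsOptimalEW (1 + H) := e1 ▸ W_optimal (Or.inl rfl)
  have h2 : IsOptimalEW (1 - H) := e2 ▸ W_optimal (Or.inr rfl)
  have h3 : Mirrored (1 + H) (1 - H) := by rw [← e1, ← e2]; exact mirrored
  have h4 : ∀ U : Op q, Uᴴ * U = 1 → 1 - H ≠ U * (1 + H) * Uᴴ := by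
    intro U hU
    rw [← e1, ← e2]
    exact not_unitary U hU
  have h5 : ¬ LocallyUnitary (1 + H) (1 - H) := by
    rintro ⟨U, hU, h⟩
    exact h4 (tens U) (tens_unitary hU) h
  exact ⟨⟨rfl, h1, h2, h3, h4, h5⟩, 3, q, by norm_num, fun _ => le_rfl, 1 + H, 1 - H, h1, h2, h3, h5⟩

end Pool.Agent.Results.MP_472e54_mp.ThreeQubits
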